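import Mathlib
import Pool.Agent.Q248.BDP.Rnd
import Pool.Agent.Q248.BDP.Gr
import Pool.Agent.H350R3.MG.Ser

/-!
# Fröberg's conjecture for spaces of exponentially many forms of the same degree

Let `K` be a field of characteristic zero, and `M = 14 κ ^ 2 t C ^ t`. The largest `dim S_j V` over
the `u`-dimensional spaces `V` of forms of degree `d` in `n` variables is the one predicted by
Fröberg whenever `u ≤ C ^ ((t - 1) * min (n / M) d)` and `j + d < κ d`. It is also true in these
degrees for `u ≤ n ^ q / M` and `d ≥ q`, with an `M` that depends on `q` and `κ` only.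

Idea of the proof: see `MP_3395a4_ag.BeyondTwice`. The forms are specialised to products of powers
of linear forms in disjoint blocks of variables, and the sets of blocks are the graphs of random
words.
-/

set_option autoImplicit false

namespace Pool.Agent.Results.MP_09261c_ag.ExponentiallyManyForms

open MvPolynomial

/-- The space `S_j V` spanned by the products of the forms of degree `j` with the elements of
`V`. -/
noncomputable def mulSpace {K : Type} [Field K] {n : ℕ} (j : ℕ) (V : Submodule K (MvPolynomial (Fin n) K)) :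
    Submodule K (MvPolynomial (Fin n) K) :=
  Submodule.span K (Set.image2 (· * ·)
    ((homogeneousSubmodule (Fin n) K j : Submodule K (MvPolynomial (Fin n) K)) :
      Set (MvPolynomial (Fin n) K)) (V : Set (MvPolynomial (Fin n) K)))

/-- The coefficient of `z ^ i` in `(1 - z ^ d) ^ u * (1 - z) ^ (-n)`. -/
noncomputable def co (n d u i : ℕ) : ℤ :=
  PowerSeries.coeff i
    ((PowerSeries.mk fun _ => (1 : ℤ)) ^ n * (1 - PowerSeries.X ^ d) ^ u)

open Classical in
/-- The coefficient of `z ^ i` in the series truncated at its first negative coefficient. -/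
noncomputable def c (n d u i : ℕ) : ℤ :=
  if ∀ m ≤ i, 0 ≤ co n d u m then co n d u i else 0

/-- The largest `dim S_j V` over the `u`-dimensional spaces `V` of forms of degree `d` over `K` in
`n` variables is `dim S_{j + d} - c_{j + d}`. -/
def Formula (K : Type) [Field K] (n d u j : ℕ) : Prop :=
  (∀ V : Submodule K (MvPolynomial (Fin n) K), V ≤ homogeneousSubmodule (Fin n) K d →
      Module.finrank K V = u →
      (Module.finrank K ↥(mulSpace j V) : ℤ) ≤
        (Module.finrank K (homogeneousSubmodule (Fin n) K (j + d)) : ℤ) - c n d u (j + d)) ∧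
  (∃ V : Submodule K (MvPolynomial (Fin n) K), V ≤ homogeneousSubmodule (Fin n) K d ∧
      Module.finrank K V = u ∧
      (Module.finrank K ↥(mulSpace j V) : ℤ) =
        (Module.finrank K (homogeneousSubmodule (Fin n) K (j + d)) : ℤ) - c n d u (j + d))

lemma of_generic (K : Type) [Field K] [CharZero K] (n u d κ : ℕ) (hn : 1 ≤ n) (hd : 1 ≤ d)
    (h : ∃ Φ : MvPolynomial (H350MG.Cf (Fin n) (fun _ : Fin u => d)) K, Φ ≠ 0 ∧
      ∀ x, eval x Φ ≠ 0 → ∀ k < κ * (d * 1),
      H350MG.qd (H350MG.fList (fun _ : Fin u => d * 1) (fun i => H350MG.fc x i ^ 1)) k =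
        H350MG.E (H350MG.gj (Fin n)) (List.ofFn fun _ : Fin u => d * 1) k) (j : ℕ)
    (hj : j + d < κ * d) : Formula K n d u j := by
  simp only [mul_one, pow_one] at h
  obtain ⟨h1, h2, h3⟩ := Pool.Agent.Q248.BDP.transfer K n u d (κ * d) hd h j hj
  have hE : ∀ i, H350MG.E (H350MG.gj (Fin n)) (List.ofFn fun _ : Fin u => d) i = co n d u i := by
    intro i
    rw [H350MG.E_ofFn_series n hn]
    unfold co
    rw [Finset.prod_const, Finset.card_univ, Fintype.card_fin]
  have hc : H350MG.E (H350MG.gj (Fin n)) (List.ofFn fun _ : Fin u => d) (j + d) =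
      c n d u (j + d) := by
    unfold c
    rw [if_pos, hE]
    intro m hm
    rw [← hE]
    exact h1 m (by omega)
  rw [hc] at h2 h3
  exact ⟨h2, h3⟩

/-- **Fröberg's formula for spaces of exponentially or polynomially many forms.** -/
theorem result :
    -- exponentially many forms
    (∀ κ t C : ℕ, 1 ≤ κ → 2 ≤ t → 1 ≤ C →
      ∀ (K : Type) [Field K] [CharZero K] (n d u : ℕ), 1 ≤ n → 1 ≤ d →
        u ≤ C ^ ((t - 1) * min (n / (14 * κ ^ 2 * t * C ^ t)) d) →
        ∀ j : ℕ, j + d < κ * d → Formula K n d u j) ∧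
    -- polynomially many forms
    (∀ q κ : ℕ, 1 ≤ q → ∃ M : ℕ, 0 < M ∧
      ∀ (K : Type) [Field K] [CharZero K] (n d u : ℕ), 1 ≤ n → q ≤ d →
        u * M ≤ n ^ q → ∀ j : ℕ, j + d < κ * d → Formula K n d u j) := by
  classical
  refine ⟨?_, fun q κ hq => ?_⟩
  · intro κ t C hκ ht hC K _ _ n d u hn hd hu j hj
    rcases Nat.eq_zero_or_pos (min (n / (14 * κ ^ 2 * t * C ^ t)) d) with h0 | h1
    · rw [h0, mul_zero, pow_zero] at hu
      exact of_generic K n u d κ hn hd
        (Pool.Agent.Q248.BDP.pow_one_form κ n u hn hu K d 1 hd le_rfl) j hj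
    · obtain ⟨X⟩ := Pool.Agent.Q248.BDP.sys_rnd hκ ht hC n _ u h1 (min_le_left _ _) hu
      exact of_generic K n u d κ hn hd
        (Pool.Agent.Q248.BDP.pow_of_sys X h1 K d 1 (min_le_right _ _) le_rfl) j hj
  · obtain ⟨M, hM, hX⟩ := Pool.Agent.Q248.BDP.sys_poly q κ hq
    refine ⟨M, hM, ?_⟩
    intro K _ _ n d u hn hd hu j hj
    obtain ⟨X⟩ := hX n u hu
    exact of_generic K n u d κ hn (by omega)
      (Pool.Agent.Q248.BDP.pow_of_sys X hq K d 1 hd le_rfl) j hj

end Pool.Agent.Results.MP_09261c_ag.ExponentiallyManyForms
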